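import Pool.Agent.Helper11_MWD.FIN3
import Pool.Agent.Helper28_MWZ.Asm
import Pool.Agent.Helper28_MWZ.Div
import Pool.Agent.Helper65_MWZ.Glue

/-!
# D1 (MP_23468a_al): the class division for index two and the dispatch of `NecH`

If `xyx` is an isoterm, the lattice is modular and neither `S1`, `S2` nor `S2`, `S3` hold, the identities
`xytxy ≈ yxtxy` and `xytxy ≈ xytyx` hold (no hypothesis on the index).
-/

set_option autoImplicit false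

namespace Pool.Agent.Helper61_MWD

open Pool.Agent.Helper14_MV Pool.Agent.Helper2_MV

variable {β : FIC}

/-- renaming of letters -/
theorem ren' (g : ℕ → ℕ) {l l' : List ℕ} (h : RR β l l') : RR β (l.map g) (l'.map g) := by
  have h1 := h.sub (fun i => [g i])
  have e : ∀ l : List ℕ, l.flatMap (fun i => [g i]) = l.map g := by
    intro l
    induction l with
    | nil => rfl
    | cons a l ih => rw [List.flatMap_cons, ih]; rfl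
  rwa [e, e] at h1

/-- from the letters `0, 1, 2, 3` to `0, 3, 2, 5` -/
def up (i : ℕ) : ℕ := if i = 1 then 3 else if i = 3 then 5 else i

/-- back -/
def dn (i : ℕ) : ℕ := if i = 3 then 1 else if i = 5 then 3 else i

theorem s1_iff : MWZ.S1 (RR β) ↔ MVD.S1 β :=
  ⟨fun h => ren' up h, fun h => ren' dn h⟩

theorem s2_iff : MWZ.S2 (RR β) ↔ MVD.S2 β :=
  ⟨fun h => ren' up h, fun h => ren' dn h⟩

theorem s1op_iff : MWZ.S1 (RR (FIC.op β)) ↔ MVD.S3 β := by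
  obtain ⟨-, -, -, -, e1, -⟩ := MVD.H81.mir β
  exact s1_iff.trans e1

theorem s2op_iff : MWZ.S2 (RR (FIC.op β)) ↔ MVD.S2 β := by
  obtain ⟨-, -, -, -, -, e2, -⟩ := MVD.H81.mir β
  exact s2_iff.trans e2

/-- `xytxy ≈ yxtxy` if `xtxysy ≈ xtyxsy` fails -/
theorem lx_of_not_s2 (hM : ModF β) (H : Iso3 β) (hS2 : ¬ MVD.S2 β) : MVD.Lx β := by
  have hrg : MVD.rg β (MVD.Bfr [0, 1, 2] (0 + 2) 1) (MVD.Bfr [0, 1, 2] 0 1) := by
    refine ⟨fun h => absurd h MVD.H91.not_bfr, fun _ h => absurd ⟨[], [], [2], rfl⟩ h,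
      fun h => absurd h MVD.H91.not_bfr, fun _ _ => hS2⟩
  have h := MWD.H11.prpF β hM H 1 [0, 1, 2] [0] (by decide) (by decide)
    ⟨0, [], rfl, hrg⟩ ⟨0, [], rfl, hrg⟩ (Or.inl hS2)
  have e1 : MVD.Ew [0, 1, 2] [0] [0, 3] = [0, 3, 2, 0, 1, 3, 5, 1, 8] := by decide
  have e2 : MVD.Ew [0, 1, 2] [0] [3, 0] = [3, 0, 2, 0, 1, 3, 5, 1, 8] := by decide
  rw [e1, e2] at h
  exact h.sub (fun i => if i = 0 then [0] else if i = 3 then [3] else if i = 2 then [2] else [])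

/-- the mirror image of `Lx` is `Rx` -/
theorem rx_of_mir (h : MVD.Lx (MVD.mir β)) : MVD.Rx β := by
  obtain ⟨e, -⟩ := MVD.H81.mir β
  have h1 : RR β [3, 0, 2, 3, 0] [3, 0, 2, 0, 3] := (e _ _).1 h
  exact ren' (fun i => if i = 0 then 3 else if i = 3 then 0 else i) h1

/-- **Class division**: the two identities for two common blocks. -/
theorem lxrx (hM : ModF β) (H : Iso3 β) (h12 : ¬ (MVD.S1 β ∧ MVD.S2 β))
    (h32 : ¬ (MVD.S3 β ∧ MVD.S2 β)) : MVD.Lx β ∧ MVD.Rx β := by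
  by_cases hS2 : MVD.S2 β
  · have hS1 : ¬ MVD.S1 β := fun h => h12 ⟨h, hS2⟩
    have hS3 : ¬ MVD.S3 β := fun h => h32 ⟨h, hS2⟩
    constructor
    · exact MWD.H11.ffcF β hM H hS2 hS1 hS3 [] [2] [] [] 0 3 (by intro a ha; simp at ha)
    · exact MWD.H11.zzcF β hM H hS2 hS1 hS3 [] [2] [] [] 0 3 (by intro a ha; simp at ha)
  · refine ⟨lx_of_not_s2 hM H hS2, ?_⟩
    obtain ⟨-, m1, -, m3, -, e2, -⟩ := MVD.H81.mir β
    exact rx_of_mir (lx_of_not_s2 (m1 hM) (m3 H) (fun h => hS2 (e2.1 h)))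

/-- **D1.** -/
theorem lxrx' (hM : ModF β) (H : Iso3 β) (h1 : ¬ (MWZ.S1 (RR β) ∧ MWZ.S2 (RR β)))
    (h2 : ¬ (MWZ.S1 (RR (FIC.op β)) ∧ MWZ.S2 (RR (FIC.op β)))) : MVD.Lx β ∧ MVD.Rx β :=
  lxrx hM H (fun h => h1 ⟨s1_iff.2 h.1, s2_iff.2 h.2⟩)
    (fun h => h2 ⟨s1op_iff.2 h.1, s2op_iff.2 h.2⟩)

/-! ### the interfaces of the blocks -/

/-- the facts about `β` in the LR world with `x²tx ≈ x²tx^(n+1)` -/
structure LRW (n : ℕ) (β : FIC) : Prop where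
  pos : 1 ≤ n
  per : MWZ.Per n (RR β)
  iso : Iso3 β
  md : ModF β
  r : MWZ.R n (RR β)
  s12 : ¬ (MVD.S1 β ∧ MVD.S2 β)
  s32 : ¬ (MVD.S3 β ∧ MVD.S2 β)
  lx : MVD.Lx β
  rx : MVD.Rx β

/-- the two letter base (helper57) -/
def HbS (n : ℕ) : Prop := ∀ β : FIC, LRW n β → MWNP.HBP n β

/-- the base for all words over h2 (helper29, helper96) -/
def Bas2 (n : ℕ) : Prop := ∀ β : FIC, LRW n β → MWNP.HBP n β →
  MWZ.R0 (RR β) ∧ MWZ.L n (RR β) → MWZ.BaseH n (RR β)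

/-- the base for all words over h3 (helper41) -/
def Bas3 (n : ℕ) : Prop := ∀ β : FIC, LRW n β → MWNP.HBP n β →
  (MWZ.H1 (RR β) ∧ MWZ.H2 (RR β) ∧ MWZ.H3 (RR β) ∧ MWZ.H4 (RR β) ∧ MWZ.E1 (RR β)) →
    MWZ.BaseH n (RR β)

/-- the base for all words over h4, h5 (helper41) -/
def Bas8 (n : ℕ) : Prop := ∀ β : FIC, LRW n β → MWNP.HBP n β →
  (MWZ.T1 (RR β) ∧ MWZ.T2 (RR β) ∧ MWZ.T3 (RR β) ∧ MWZ.T4 (RR β) ∧ MWZ.T5 (RR β) ∧
    MWZ.T6 (RR β) ∧ MWZ.T7 (RR β) ∧ MWZ.E2 (RR β)) → MWZ.BaseH n (RR β)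

/-- `F`, `F'` for all words (helper11, squad MWE) -/
def FfS : Prop := ∀ β : FIC, ModF β → Iso3 β → MWZ.I2 (RR β) → MVD.Lx β → MVD.Rx β →
  MWZ.F (RR β) ∧ MWZ.F' (RR β)

/-- trivial slots over h2 (helper29, helper96) -/
def It2 (n : ℕ) : Prop := ∀ β : FIC, LRW n β → MWNP.HBP n β →
  MWZ.R0 (RR β) ∧ MWZ.L n (RR β) → MWZ.I1 n (RR β) ∧ MWZ.I2 (RR β)

/-- trivial slots over h3 (helper41) -/
def It3 (n : ℕ) : Prop := ∀ β : FIC, LRW n β → MWNP.HBP n β →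
  (MWZ.H1 (RR β) ∧ MWZ.H2 (RR β) ∧ MWZ.H3 (RR β) ∧ MWZ.H4 (RR β) ∧ MWZ.E1 (RR β)) →
    MWZ.I1 n (RR β) ∧ MWZ.I2 (RR β)

/-- trivial slots over h4, h5 (helper41) -/
def It8 (n : ℕ) : Prop := ∀ β : FIC, LRW n β → MWNP.HBP n β →
  (MWZ.T1 (RR β) ∧ MWZ.T2 (RR β) ∧ MWZ.T3 (RR β) ∧ MWZ.T4 (RR β) ∧ MWZ.T5 (RR β) ∧
    MWZ.T6 (RR β) ∧ MWZ.T7 (RR β) ∧ MWZ.E2 (RR β)) → MWZ.I1 n (RR β) ∧ MWZ.I2 (RR β)

theorem baseH_of_it (hf : FfS) {n : ℕ} {β : FIC} (hw : LRW n β)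
    (h : MWZ.I1 n (RR β) ∧ MWZ.I2 (RR β)) : MWZ.BaseH n (RR β) := by
  obtain ⟨f1, f2⟩ := hf β hw.md hw.iso h.2 hw.lx hw.rx
  exact ⟨f1, f2, h.1, h.2⟩

theorem bas2_of (hf : FfS) {n : ℕ} (h : It2 n) : Bas2 n :=
  fun β hw hb hs => baseH_of_it hf hw (h β hw hb hs)

theorem bas3_of (hf : FfS) {n : ℕ} (h : It3 n) : Bas3 n :=
  fun β hw hb hs => baseH_of_it hf hw (h β hw hb hs)

theorem bas8_of (hf : FfS) {n : ℕ} (h : It8 n) : Bas8 n :=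
  fun β hw hb hs => baseH_of_it hf hw (h β hw hb hs)

/-- the system of a variety in the LR world -/
theorem sysH_of (n : ℕ) (hhb : HbS n) (hphf : MWNP.PhfStmt) (h2 : Bas2 n) (h3 : Bas3 n)
    (h8 : Bas8 n) : ∀ β : FIC, LRW n β → MWZ.SysH n (RR β) := by
  intro β hw
  have hb := hhb β hw
  refine MWZ.H65.phf_sys hphf n β hb hw.iso hw.md ?_
  rcases MWZ.H65.two_of_phf hphf hb hw.iso hw.md with h | h | h
  · exact h2 β hw hb h
  · exact h3 β hw hb h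
  · exact h8 β hw hb h.1

theorem r_of_lr {n : ℕ} (h : MWL.LR n (MVO.FC.ofFIC β)) : MWZ.R n (RR β) := by
  have h1 : RR β (MVO.mw 1 (MVO.v2 2 1)) (MVO.mw 1 (MVO.v2 2 (n + 1))) := h.rr
  exact h1

theorem mw12 (a b : ℕ) : MVO.mw 1 (MVO.v2 a b) = List.replicate a 0 ++ 2 :: List.replicate b 0 :=
  rfl

theorem r_op_of_lrd {n : ℕ} (h : MWC.LRd n (MVO.FC.ofFIC β)) : MWZ.R n (RR (FIC.op β)) := by
  have h1 : RR β (MVO.mw 1 (MVO.v2 1 2)) (MVO.mw 1 (MVO.v2 (n + 1) 2)) := h.rr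
  rw [mw12, mw12] at h1
  have h2 : RR (FIC.op β) (List.replicate 1 0 ++ 2 :: List.replicate 2 0).reverse
      (List.replicate (n + 1) 0 ++ 2 :: List.replicate 2 0).reverse := by
    rw [(MWZ.H28.opr β).1, List.reverse_reverse, List.reverse_reverse]
    exact h1
  have e : (List.replicate (n + 1) 0 ++ 2 :: List.replicate 2 0).reverse =
      MWZ.X 2 ++ 2 :: MWZ.X (n + 1) := by
    rw [List.reverse_append, List.reverse_cons, List.reverse_replicate, List.reverse_replicate]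
    simp only [List.append_assoc]
    rfl
  rw [e] at h2
  exact h2

/-- **The dispatch**: `NecH1 n` from the block theorems. -/
theorem necH1 (n : ℕ) (hn : 1 ≤ n) (hhb : HbS n) (hphf : MWNP.PhfStmt) (h2 : Bas2 n)
    (h3 : Bas3 n) (h8 : Bas8 n) : MWZ.NecH1 n := by
  intro β hp H hM h12 h32
  have key := sysH_of n hhb hphf h2 h3 h8
  have mk : ∀ γ : FIC, MWZ.Per n (RR γ) → Iso3 γ → ModF γ →
      ¬ (MWZ.S1 (RR γ) ∧ MWZ.S2 (RR γ)) → ¬ (MWZ.S1 (RR (FIC.op γ)) ∧ MWZ.S2 (RR (FIC.op γ))) →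
      MWZ.R n (RR γ) → LRW n γ := by
    intro γ hp H hM h1 h3 hr
    obtain ⟨hl, hrx⟩ := lxrx' hM H h1 h3
    exact ⟨hn, hp, H, hM, hr, fun h => h1 ⟨s1_iff.2 h.1, s2_iff.2 h.2⟩,
      fun h => h3 ⟨s1op_iff.2 h.1, s2op_iff.2 h.2⟩, hl, hrx⟩
  rcases MWZ.H28.div2 hn hp hM H with h | h
  · left
    exact key β (mk β hp H hM h12 h32 (r_of_lr h))
  · right
    refine key (FIC.op β) (mk (FIC.op β) (MWZ.H28.per_op hp) (MWZ.H28.iso3_op H) (op_modF hM)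
      h32 ?_ (r_op_of_lrd h))
    rw [(MWZ.H28.opr β).2.2]
    exact h12

/-- the dispatch for all periods -/
theorem necH (hhb : ∀ n, 1 ≤ n → HbS n) (hphf : MWNP.PhfStmt) (h2 : ∀ n, 1 ≤ n → Bas2 n)
    (h3 : ∀ n, 1 ≤ n → Bas3 n) (h8 : ∀ n, 1 ≤ n → Bas8 n) : MWZ.NecH :=
  fun n β hn => necH1 n hn (hhb n hn) hphf (h2 n hn) (h3 n hn) (h8 n hn) β

/-- the dispatch for one period with the blocks for `F`, `F'` and for the slots -/
theorem necH1' (n : ℕ) (hn : 1 ≤ n) (hhb : HbS n) (hphf : MWNP.PhfStmt) (hf : FfS) (h2 : It2 n)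
    (h3 : It3 n) (h8 : It8 n) : MWZ.NecH1 n :=
  necH1 n hn hhb hphf (bas2_of hf h2) (bas3_of hf h3) (bas8_of hf h8)

end Pool.Agent.Helper61_MWD
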