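import Pool.Agent.Helper61_MWD.DispQ
import Pool.Agent.MWFE.StmtsC

/-!
# The identities `FE`, `FE'` for all periods from the theorem of squad MWFE (MP_23468a_al)
-/

set_option autoImplicit false

namespace Pool.Agent.Helper61_MWD

/-- **`FE`, `FE'`** -/
theorem feQ_of (h : MWFE.FeqStmt) : ∀ n, FeQ n := fun n β hw => h n hw.pos β hw

end Pool.Agent.Helper61_MWD
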