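import Pool.Agent.Helper61_MWD.Disp

/-!
# The dispatch with the residue crossings as hypotheses (MP_23468a_al)

`RC`: `x³yxty ≈ x²yx²ty`, `RC'`: `ytxyx³ ≈ ytx²yx²`.
-/

set_option autoImplicit false

namespace Pool.Agent.Helper61_MWD

open Pool.Agent.Helper14_MV Pool.Agent.Helper2_MV

/-- `x³yxty ≈ x²yx²ty` -/
def RC (S : List ℕ → List ℕ → Prop) : Prop := S [0, 0, 0, 1, 0, 2, 1] [0, 0, 1, 0, 0, 2, 1]

/-- `ytxyx³ ≈ ytx²yx²` -/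
def RC' (S : List ℕ → List ℕ → Prop) : Prop := S [1, 2, 0, 1, 0, 0, 0] [1, 2, 0, 0, 1, 0, 0]

theorem rc_op {β : FIC} : (RC (RR (FIC.op β)) ↔ RC' (RR β)) ∧ (RC' (RR (FIC.op β)) ↔ RC (RR β)) := by
  unfold RC RC'
  rw [(MWZ.H28.opr β).1]
  exact ⟨Iff.rfl, Iff.rfl⟩

/-- the two letter base if the residue crossings hold (helper57) -/
def HbR (n : ℕ) : Prop := ∀ β : FIC, LRW n β → RC (RR β) → RC' (RR β) → MWNP.HBP n β

/-- `NecH1` for the varieties with the residue crossings -/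
def NecR (n : ℕ) : Prop :=
  ∀ β : FIC, RC (RR β) → RC' (RR β) → MWZ.Per n (RR β) → Iso3 β → ModF β →
    ¬ (MWZ.S1 (RR β) ∧ MWZ.S2 (RR β)) → ¬ (MWZ.S1 (RR (FIC.op β)) ∧ MWZ.S2 (RR (FIC.op β))) →
      (MWZ.SysH n (RR β) ∨ MWZ.SysH n (RR (FIC.op β)))

/-- **The dispatch** with the residue crossings. -/
theorem necR (n : ℕ) (hn : 1 ≤ n) (hhb : HbR n) (hphf : MWNP.PhfStmt) (h2 : Bas2 n)
    (h3 : Bas3 n) (h8 : Bas8 n) : NecR n := by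
  intro β hrc hrc' hp H hM h12 h32
  have key : ∀ γ : FIC, LRW n γ → RC (RR γ) → RC' (RR γ) → MWZ.SysH n (RR γ) := by
    intro γ hw g1 g2
    have hb := hhb γ hw g1 g2
    refine MWZ.H65.phf_sys hphf n γ hb hw.iso hw.md ?_
    rcases MWZ.H65.two_of_phf hphf hb hw.iso hw.md with h | h | h
    · exact h2 γ hw hb h
    · exact h3 γ hw hb h
    · exact h8 γ hw hb h.1
  have mk : ∀ γ : FIC, MWZ.Per n (RR γ) → Iso3 γ → ModF γ →
      ¬ (MWZ.S1 (RR γ) ∧ MWZ.S2 (RR γ)) → ¬ (MWZ.S1 (RR (FIC.op γ)) ∧ MWZ.S2 (RR (FIC.op γ))) →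
      MWZ.R n (RR γ) → LRW n γ := by
    intro γ hp H hM h1 h3 hr
    obtain ⟨hl, hrx⟩ := lxrx' hM H h1 h3
    exact ⟨hn, hp, H, hM, hr, fun h => h1 ⟨s1_iff.2 h.1, s2_iff.2 h.2⟩,
      fun h => h3 ⟨s1op_iff.2 h.1, s2op_iff.2 h.2⟩, hl, hrx⟩
  rcases MWZ.H28.div2 hn hp hM H with h | h
  · left
    exact key β (mk β hp H hM h12 h32 (r_of_lr h)) hrc hrc'
  · right
    refine key (FIC.op β) (mk (FIC.op β) (MWZ.H28.per_op hp) (MWZ.H28.iso3_op H) (op_modF hM)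
      h32 ?_ (r_op_of_lrd h)) (rc_op.1.2 hrc') (rc_op.2.2 hrc)
    rw [(MWZ.H28.opr β).2.2]
    exact h12

end Pool.Agent.Helper61_MWD
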