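import Pool.Agent.Helper61_MWD.DispR
import Pool.Agent.MWGI.Defs

/-!
# The dispatch for all periods (MP_23468a_al)

In the world `x²y² ≈ y²x²`, `xtxsx ≈ x^(n+1)tx^(n+1)sx^(n+1)` the residue crossing is not forced if
`n ≥ 2`; the system `MWGI.SysH2 n` replaces h2.  Outside of this world the two letter base holds.
-/

set_option autoImplicit false

namespace Pool.Agent.Helper61_MWD

open Pool.Agent.Helper14_MV Pool.Agent.Helper2_MV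

/-- the two letter base outside of `R0`, `L` (helper57) -/
def HbF (n : ℕ) : Prop := ∀ β : FIC, LRW n β → ¬ (MWZ.R0 (RR β) ∧ MWZ.L n (RR β)) → MWNP.HBP n β

/-- the slots over `R0`, `L` (helper96) -/
def ItQ (n : ℕ) : Prop := ∀ β : FIC, LRW n β → MWZ.R0 (RR β) ∧ MWZ.L n (RR β) →
  MWZ.I1 n (RR β) ∧ MWGR.It n (RR β)

/-- `F`, `F'` over the insertion of `x^n` (helper41) -/
def FfQ (n : ℕ) : Prop := ∀ β : FIC, LRW n β → MWGR.It n (RR β) → MWZ.F (RR β) ∧ MWZ.F' (RR β)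

/-- `FE`, `FE'` (helper65) -/
def FeQ (n : ℕ) : Prop := ∀ β : FIC, LRW n β → MWZ.R0 (RR β) ∧ MWZ.L n (RR β) →
  MWZ.I1 n (RR β) → MWGR.It n (RR β) → MWZ.F (RR β) → MWZ.F' (RR β) →
    MWGR.FE n 1 (RR β) ∧ MWGI.FE' n 1 (RR β)

/-- h3, h4, h5 -/
def SysH3 (n : ℕ) (S : List ℕ → List ℕ → Prop) : Prop := MWZ.BaseH n S ∧ MWZ.R n S ∧
  ((MWZ.H1 S ∧ MWZ.H2 S ∧ MWZ.H3 S ∧ MWZ.H4 S ∧ MWZ.E1 S) ∨
    ((MWZ.T1 S ∧ MWZ.T2 S ∧ MWZ.T3 S ∧ MWZ.T4 S ∧ MWZ.T5 S ∧ MWZ.T6 S ∧ MWZ.T7 S ∧ MWZ.E2 S) ∧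
      ((MWZ.J n S ∧ MWZ.T8 S) ∨ MWZ.K n S)))

theorem sysH3_sysH {n : ℕ} {S : List ℕ → List ℕ → Prop} (h : SysH3 n S) : MWZ.SysH n S :=
  ⟨h.1, h.2.1, Or.inr h.2.2⟩

/-- the systems of the LR world, all periods -/
def SysQ (n : ℕ) (S : List ℕ → List ℕ → Prop) : Prop := MWGI.SysH2 n S ∨ SysH3 n S

/-- the system of a variety in the LR world -/
theorem sysQ_of (n : ℕ) (hhb : HbF n) (hi : ItQ n) (hf : FfQ n) (hfe : FeQ n)
    (hphf : MWNP.PhfStmt) (h3 : Bas3 n) (h8 : Bas8 n) : ∀ β : FIC, LRW n β → SysQ n (RR β) := by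
  intro β hw
  by_cases hc : MWZ.R0 (RR β) ∧ MWZ.L n (RR β)
  · left
    obtain ⟨i1, it⟩ := hi β hw hc
    obtain ⟨f1, f2⟩ := hf β hw it
    obtain ⟨e1, e2⟩ := hfe β hw hc i1 it f1 f2
    exact ⟨hw.r, hc.1, hc.2, i1, it, e1, e2⟩
  · right
    have hb := hhb β hw hc
    have hB : MWZ.BaseH n (RR β) := by
      rcases MWZ.H65.two_of_phf hphf hb hw.iso hw.md with h | h | h
      · exact absurd h hc
      · exact h3 β hw hb h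
      · exact h8 β hw hb h.1
    have hs := MWZ.H65.phf_sys hphf n β hb hw.iso hw.md hB
    refine ⟨hs.1, hs.2.1, ?_⟩
    rcases hs.2.2 with h | h
    · exact absurd h hc
    · exact h

/-- necessity in the LR world for one period -/
def NecQ (n : ℕ) : Prop :=
  ∀ β : FIC, MWZ.Per n (RR β) → Iso3 β → ModF β → ¬ (MWZ.S1 (RR β) ∧ MWZ.S2 (RR β)) →
    ¬ (MWZ.S1 (RR (FIC.op β)) ∧ MWZ.S2 (RR (FIC.op β))) →
      (SysQ n (RR β) ∨ SysQ n (RR (FIC.op β)))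

/-- **The dispatch.** -/
theorem necQ (n : ℕ) (hn : 1 ≤ n) (hhb : HbF n) (hi : ItQ n) (hf : FfQ n) (hfe : FeQ n)
    (hphf : MWNP.PhfStmt) (h3 : Bas3 n) (h8 : Bas8 n) : NecQ n := by
  intro β hp H hM h12 h32
  have key := sysQ_of n hhb hi hf hfe hphf h3 h8
  have mk : ∀ γ : FIC, MWZ.Per n (RR γ) → Iso3 γ → ModF γ →
      ¬ (MWZ.S1 (RR γ) ∧ MWZ.S2 (RR γ)) → ¬ (MWZ.S1 (RR (FIC.op γ)) ∧ MWZ.S2 (RR (FIC.op γ))) →
      MWZ.R n (RR γ) → LRW n γ := by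
    intro γ hp H hM h1 h3 hr
    obtain ⟨hl, hrx⟩ := lxrx' hM H h1 h3
    exact ⟨hn, hp, H, hM, hr, fun h => h1 ⟨s1_iff.2 h.1, s2_iff.2 h.2⟩,
      fun h => h3 ⟨s1op_iff.2 h.1, s2op_iff.2 h.2⟩, hl, hrx⟩
  rcases MWZ.H28.div2 hn hp hM H with h | h
  · left
    exact key β (mk β hp H hM h12 h32 (r_of_lr h))
  · right
    refine key (FIC.op β) (mk (FIC.op β) (MWZ.H28.per_op hp) (MWZ.H28.iso3_op H) (op_modF hM)
      h32 ?_ (r_op_of_lrd h))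
    rw [(MWZ.H28.opr β).2.2]
    exact h12

end Pool.Agent.Helper61_MWD
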