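import Pool.Agent.Helper79_MWD.HTm
import Pool.Agent.Helper97_MVD.INS
import Pool.Agent.Helper61_MWD.Disp

/-!
# Trivial slots over h3, h4, h5 (MP_23468a_al)

From `x yy ≈ y x y` (for multiple `x`) and `y c y ≈ y c y^(n+1)` for words `c` of distinct letters with
isolated pins: the identities `I1`, `I2` for all words.
-/

set_option autoImplicit false

namespace Pool.Agent.Helper61_MWD

open Pool.Agent.Helper14_MV Pool.Agent.Helper2_MV

/-- `y^a` -/
abbrev Rp (a y : ℕ) : List ℕ := List.replicate a y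

/-- `p x yy q ≈ p y x y q` if `x` is a letter of `pq` -/
def K1 (β : FIC) : Prop := ∀ (p q : List ℕ) (x y : ℕ), x ≠ y → (x ∈ p ∨ x ∈ q) →
  RR β (p ++ x :: y :: y :: q) (p ++ y :: x :: y :: q)

/-- the letters of `c` different from `y` occur at least twice in `w` -/
def Mc (y : ℕ) (c w : List ℕ) : Prop := ∀ v ∈ c, v ≠ y → 2 ≤ w.count v

/-- periods -/
def Pr (n : ℕ) (β : FIC) : Prop := RR β [0, 0] (List.replicate (n + 2) 0)

/-- `p y c y q ≈ p y c y^(n+1) q` -/
def DD (n : ℕ) (β : FIC) : Prop := ∀ (c p q : List ℕ) (y : ℕ), Mc y c (p ++ c ++ q) →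
  RR β (p ++ y :: (c ++ y :: q)) (p ++ y :: (c ++ (Rp (n + 1) y ++ q)))

/-- the same for words of distinct letters -/
def DN (n : ℕ) (β : FIC) : Prop := ∀ (c p q : List ℕ) (y : ℕ), c.Nodup → y ∉ c →
  Mc y c (p ++ c ++ q) → RR β (p ++ y :: (c ++ y :: q)) (p ++ y :: (c ++ (Rp (n + 1) y ++ q)))

/-- the same for words of distinct letters with isolated pins -/
def DL (n : ℕ) (β : FIC) : Prop := ∀ (P Q : List ℕ) (m : ℕ), 1 ≤ m → (P ++ Q).Perm (List.range m) →
  RR β (MVD.bw P Q m)
    (MVD.Wm P Q (0 :: (MVD.zs (List.range m) ++ List.replicate (n + 1) 0)))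

variable {n : ℕ} {β : FIC}

theorem rtr {a b c : List ℕ} (h1 : RR β a b) (h2 : RR β b c) : RR β a c := β.trans h1 h2

theorem ctx (p q : List ℕ) {l l' : List ℕ} (h : RR β l l') : RR β (p ++ l ++ q) (p ++ l' ++ q) :=
  ((RR.refl p).append h).append (RR.refl q)

theorem per_pow (hp : Pr n β) (a y : ℕ) (ha : 2 ≤ a) (k : ℕ) :
    RR β (Rp a y) (Rp (a + k * n) y) := by
  induction k with
  | zero => simpa using RR.refl (β := β) (Rp a y)
  | succ k ih =>
    refine rtr ih ?_
    obtain ⟨b, hb⟩ : ∃ b, a + k * n = b + 2 := ⟨a + k * n - 2, by omega⟩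
    have h1 := hp.sub (fun _ => [y])
    have e : ∀ j : ℕ, (List.replicate j 0).flatMap (fun _ => [y]) = Rp j y := by
      intro j
      induction j with
      | zero => rfl
      | succ j ih => rw [List.replicate_succ, List.flatMap_cons, ih]; rfl
    have e2 : ([0, 0] : List ℕ) = List.replicate 2 0 := rfl
    rw [e2, e, e] at h1
    have h2 := (RR.refl (β := β) (Rp b y)).append h1
    rw [← List.replicate_add, ← List.replicate_add] at h2
    have e3 : a + (k + 1) * n = b + (n + 2) := by
      rw [Nat.add_mul, Nat.one_mul]; omega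
    rw [hb, e3]
    exact h2

theorem per_eq' (hp : Pr n β) {a b y : ℕ} (ha : 2 ≤ a) (hb : 2 ≤ b) {u v : ℕ}
    (h : a + u * n = b + v * n) : RR β (Rp a y) (Rp b y) := by
  have h1 := per_pow hp a y ha u
  have h2 := per_pow hp b y hb v
  rw [← h] at h2
  exact rtr h1 h2.symm

/-- a letter passes powers -/
theorem k1pow (hk : K1 β) (x y : ℕ) (b : ℕ) : ∀ (a : ℕ) (p q : List ℕ),
    (x ≠ y → x ∈ p ∨ x ∈ q) →
    RR β (p ++ (x :: (Rp (a + (b + 1)) y ++ q))) (p ++ (Rp a y ++ x :: (Rp (b + 1) y ++ q))) := by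
  intro a
  induction a with
  | zero =>
    intro p q _
    simpa using RR.refl (β := β) (p ++ (x :: (Rp (b + 1) y ++ q)))
  | succ a ih =>
    intro p q h
    by_cases hxy : x = y
    · subst hxy
      have e : p ++ (x :: (Rp (a + 1 + (b + 1)) x ++ q)) =
          p ++ (Rp (a + 1) x ++ x :: (Rp (b + 1) x ++ q)) := by
        congr 1
        have e1 : x :: (Rp (a + 1 + (b + 1)) x ++ q) = Rp (a + 1 + (b + 1) + 1) x ++ q := rfl
        have e2 : Rp (a + 1) x ++ x :: (Rp (b + 1) x ++ q) =
            Rp (a + 1) x ++ (Rp (b + 1 + 1) x ++ q) := rfl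
        rw [e1, e2, ← List.append_assoc, ← List.replicate_add]
        congr 2
      rw [e]
      exact RR.refl _
    have h1 := hk p (Rp (a + b) y ++ q) x y hxy (by
      rcases h hxy with h | h
      · exact Or.inl h
      · exact Or.inr (List.mem_append_right _ h))
    have e1 : p ++ x :: y :: y :: (Rp (a + b) y ++ q) =
        p ++ (x :: (Rp (a + 1 + (b + 1)) y ++ q)) := by
      have : Rp (a + 1 + (b + 1)) y = y :: y :: Rp (a + b) y := by
        rw [show a + 1 + (b + 1) = a + b + 1 + 1 by ring]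
        rfl
      rw [this]
      rfl
    have e2 : p ++ y :: x :: y :: (Rp (a + b) y ++ q) =
        (p ++ [y]) ++ (x :: (Rp (a + (b + 1)) y ++ q)) := by
      have : Rp (a + (b + 1)) y = y :: Rp (a + b) y := rfl
      rw [this]
      simp
    rw [e1, e2] at h1
    have h2 := ih (p ++ [y]) q (fun hne => by
      rcases h hne with h | h
      · exact Or.inl (List.mem_append_left _ h)
      · exact Or.inr h)
    refine rtr h1 ?_
    have e3 : (p ++ [y]) ++ (Rp a y ++ x :: (Rp (b + 1) y ++ q)) =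
        p ++ (Rp (a + 1) y ++ x :: (Rp (b + 1) y ++ q)) := by
      simp [Rp, List.replicate_succ]
    rw [e3] at h2
    exact h2

/-- **(P)**: powers `y^j` pass words of multiple letters if `yy` stays -/
theorem pP (hp : Pr n β) (hn : 1 ≤ n) (hk : K1 β) (y : ℕ) : ∀ (c p q : List ℕ) (a j : ℕ), 2 ≤ a →
    Mc y c (p ++ c ++ q) →
    RR β (p ++ (c ++ (Rp (j + a) y ++ q))) (p ++ (Rp j y ++ (c ++ (Rp a y ++ q)))) := by
  intro c
  induction c using List.reverseRecOn with
  | nil =>
    intro p q a j _ _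
    have e : p ++ ([] ++ (Rp (j + a) y ++ q)) = p ++ (Rp j y ++ ([] ++ (Rp a y ++ q))) := by
      rw [List.nil_append, List.nil_append, ← List.append_assoc (Rp j y), ← List.replicate_add]
    rw [e]
    exact RR.refl _
  | append_singleton c x ih =>
    intro p q a j ha hM
    -- first make the power longer
    have h0 : RR β (Rp (j + a) y) (Rp (j + (a - 1 + n) + 1) y) :=
      per_eq' hp (u := 1) (v := 0) (by omega) (by omega) (by omega)
    have h1 := ctx (p ++ (c ++ [x])) q h0
    have hx : x ≠ y → x ∈ p ++ c ∨ x ∈ q := by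
      intro hxy
      have h2 := hM x (by simp) hxy
      simp only [List.count_append, List.count_cons_self, List.count_nil] at h2
      by_contra h3
      push Not at h3
      have h4 := List.count_eq_zero_of_not_mem h3.1
      have h5 := List.count_eq_zero_of_not_mem h3.2
      rw [List.count_append] at h4
      omega
    have h2 := k1pow hk x y 0 (j + (a - 1 + n)) (p ++ c) q hx
    have h3 := ih p (x :: (Rp 1 y ++ q)) (a - 1 + n) j (by omega) (by
      intro v hv hvy
      have h4 := hM v (by simp [hv]) hvy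
      simp only [List.count_append, List.count_cons, List.count_nil] at h4 ⊢
      omega)
    have h4 := k1pow hk x y 0 (a - 1 + n) (p ++ (Rp j y ++ c)) q (by
      intro hxy
      rcases hx hxy with h | h
      · left
        rcases List.mem_append.1 h with h | h
        · exact List.mem_append_left _ h
        · exact List.mem_append_right _ (List.mem_append_right _ h)
      · exact Or.inr h)
    have h5 : RR β (Rp (a - 1 + n + 1) y) (Rp a y) :=
      per_eq' hp (u := 0) (v := 1) (by omega) (by omega) (by omega)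
    have h6 := ctx (p ++ (Rp j y ++ (c ++ [x]))) q h5
    simp only [List.append_assoc, List.cons_append, List.nil_append, Nat.zero_add,
      List.singleton_append] at h1 h2 h3 h4 h6 ⊢
    exact rtr h1 (rtr h2 (rtr h3 (rtr h4.symm h6)))

/-- the case of distinct letters -/
theorem dn_of_dl (hp : Pr n β) (hL : DL n β) : DN n β := by
  intro c p q y hc hy hM
  rcases Nat.eq_zero_or_pos c.length with h0 | h0
  · have hc0 : c = [] := List.length_eq_zero_iff.1 h0
    subst hc0
    have h1 : RR β (Rp 2 y) (Rp (n + 2) y) := by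
      have := per_pow hp 2 y le_rfl 1
      rwa [Nat.one_mul, Nat.add_comm 2 n] at this
    have h2 := ctx p q h1
    have e1 : p ++ Rp 2 y ++ q = p ++ y :: ([] ++ y :: q) := by simp [Rp, List.replicate]
    have e2 : p ++ Rp (n + 2) y ++ q = p ++ y :: ([] ++ (Rp (n + 1) y ++ q)) := by
      simp [Rp, List.replicate_succ]
    rwa [e1, e2] at h2
  set f : ℕ → ℕ := fun e => c.getD e 0 with hf
  have hfe : ∀ e (he : e < c.length), f e = (c)[e] := by
    intro e he
    rw [hf]
    exact List.getD_eq_getElem c 0 he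
  have hinj : ∀ a b, a < c.length → b < c.length → f a = f b → a = b := by
    intro a b ha hb hab
    rw [hfe a ha, hfe b hb] at hab
    exact (List.Nodup.getElem_inj_iff hc).1 hab
  have hpq : ∀ e, e < c.length → f e ∈ p ∨ f e ∈ q := by
    intro e he
    rw [hfe e he]
    have hm : (c)[e] ∈ c := List.getElem_mem he
    have h1 := hM ((c)[e]) hm (fun h => hy (h ▸ hm))
    have h2 : List.count ((c)[e]) c = 1 := List.count_eq_one_of_mem hc hm
    by_contra h3
    push Not at h3
    have h4 := List.count_eq_zero_of_not_mem h3.1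
    have h5 := List.count_eq_zero_of_not_mem h3.2
    simp only [List.count_append] at h1
    omega
  classical
  set E1 := (List.range c.length).filter (fun e => decide (f e ∈ p)) with hE1
  set E2 := (List.range c.length).filter (fun e => !decide (f e ∈ p)) with hE2
  have hlt1 : ∀ e ∈ E1, e < c.length := fun e he => List.mem_range.1 (List.mem_filter.1 he).1
  have hlt2 : ∀ e ∈ E2, e < c.length := fun e he => List.mem_range.1 (List.mem_filter.1 he).1
  obtain ⟨g0, P, h, hP, hpP⟩ := MVD.H97.skel f p E1 (List.nodup_range.filter _)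
    (fun a ha b hb hab => hinj a b (hlt1 a ha) (hlt1 b hb) hab)
    (fun e he => by simpa using (List.mem_filter.1 he).2)
  obtain ⟨g1, Q, h', hQ, hqQ⟩ := MVD.H97.skel f q E2 (List.nodup_range.filter _)
    (fun a ha b hb hab => hinj a b (hlt2 a ha) (hlt2 b hb) hab)
    (fun e he => by
      have h1 := (List.mem_filter.1 he).2
      simp only [Bool.not_eq_true', decide_eq_false_iff_not] at h1
      exact (hpq e (hlt2 e he)).resolve_left h1)
  have hperm : (P ++ Q).Perm (List.range c.length) :=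
    (hP.append hQ).trans (List.filter_append_perm _ _)
  have hnd : (P ++ Q).Nodup := hperm.nodup_iff.2 List.nodup_range
  set g : ℕ → List ℕ := fun i => if i = 0 then [y] else if i = 2 then g1 else
    if i % 3 = 1 then [f (i / 3)] else if (i - 5) / 3 ∈ P then h ((i - 5) / 3) else
      h' ((i - 5) / 3) with hg
  have hgz : ∀ e, g (3 * e + 1) = [f e] := by
    intro e
    rw [hg]
    simp only
    rw [if_neg (by omega), if_neg (by omega), if_pos (by omega)]
    congr 2
    omega
  have hgP : ∀ e ∈ P, g (3 * e + 5) = h e := by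
    intro e he
    rw [hg]
    simp only
    have e1 : (3 * e + 5 - 5) / 3 = e := by omega
    rw [if_neg (by omega), if_neg (by omega), if_neg (by omega), e1, if_pos he]
  have hgQ : ∀ e ∈ Q, g (3 * e + 5) = h' e := by
    intro e he
    rw [hg]
    simp only
    have e1 : (3 * e + 5 - 5) / 3 = e := by omega
    have e2 : e ∉ P := fun h1 => (List.disjoint_of_nodup_append hnd) h1 he
    rw [if_neg (by omega), if_neg (by omega), if_neg (by omega), e1, if_neg e2]
  have hflat : ∀ (T : List ℕ) (k : ℕ → List ℕ), (∀ e ∈ T, g (3 * e + 5) = k e) →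
      (Helper79_MWD.pq T).flatMap g = T.flatMap (fun e => f e :: k e) := by
    intro T k
    induction T with
    | nil => intro _; rfl
    | cons e T ih =>
      intro hT
      have e1 : Helper79_MWD.pq (e :: T) = [3 * e + 1, 3 * e + 5] ++ Helper79_MWD.pq T := rfl
      rw [e1, List.flatMap_append, ih (fun a ha => hT a (by simp [ha])), List.flatMap_cons,
        List.flatMap_cons, List.flatMap_nil, hgz, hT e (by simp), List.flatMap_cons]
      simp
  have hzs : (MVD.zs (List.range c.length)).flatMap g = c :=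
    MVD.H91.flatMap_zs g c (fun e he => by rw [hgz, hfe e he])
  have hrep : ∀ k : ℕ, (List.replicate k 0).flatMap g = Rp k y := by
    intro k
    induction k with
    | zero => rfl
    | succ k ih =>
      rw [List.replicate_succ, List.flatMap_cons, ih]
      rfl
  have h9 := ((hL P Q c.length h0 hperm).sub g)
  have h10 := ctx g0 [] h9
  have key : ∀ k : ℕ, g0 ++ (MVD.Wm P Q (0 :: (MVD.zs (List.range c.length) ++
      List.replicate k 0))).flatMap g ++ [] = p ++ y :: (c ++ (Rp k y ++ q)) := by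
    intro k
    rw [Helper79_MWD.wm_eq, List.flatMap_append, List.flatMap_append, List.flatMap_cons,
      List.flatMap_append, List.flatMap_cons, hflat P h hgP, hflat Q h' hgQ, hzs, hrep]
    have e0 : g 0 = [y] := rfl
    have e2 : g 2 = g1 := rfl
    rw [e0, e2]
    conv_rhs => rw [hpP, hqQ]
    simp
  have k1 := key 1
  have k2 := key (n + 1)
  have e1 : MVD.bw P Q c.length = MVD.Wm P Q (0 :: (MVD.zs (List.range c.length) ++
      List.replicate 1 0)) := rfl
  rw [e1, k1, k2] at h10
  exact h10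

/-- helper41's form of the statement for distinct letters -/
def Fd (β : FIC) : Prop := ∀ (p c q : List ℕ) (y : ℕ), c.Nodup → y ∉ c →
  (∀ a ∈ c, a ∈ p ∨ a ∈ q) → RR β (p ++ y :: (c ++ y :: q)) (p ++ (c ++ y :: y :: q))

theorem dn_of_fd (hp : Pr n β) (hn : 1 ≤ n) (hk : K1 β) (hF : Fd β) : DN n β := by
  intro c p q y hc hy hM
  have h1 := hF p c q y hc hy (by
    intro a ha
    have h1 := hM a ha (fun h => hy (h ▸ ha))
    have h2 : List.count a c = 1 := List.count_eq_one_of_mem hc ha
    by_contra h3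
    push Not at h3
    have h4 := List.count_eq_zero_of_not_mem h3.1
    have h5 := List.count_eq_zero_of_not_mem h3.2
    simp only [List.count_append] at h1
    omega)
  have h2 : RR β (Rp 2 y) (Rp (1 + (n + 1)) y) :=
    per_eq' hp (u := 1) (v := 0) (by omega) (by omega) (by omega)
  have h3 := ctx (p ++ c) q h2
  have h4 := pP hp hn hk y c p q (n + 1) 1 (by omega) hM
  have e1 : p ++ c ++ Rp 2 y ++ q = p ++ (c ++ y :: y :: q) := by
    simp [Rp, List.replicate_succ]
  have e2 : p ++ c ++ Rp (1 + (n + 1)) y ++ q = p ++ (c ++ (Rp (1 + (n + 1)) y ++ q)) := by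
    simp only [List.append_assoc]
  rw [e1, e2] at h3
  exact rtr h1 (rtr h3 h4)

/-- **(D)** -/
theorem dd (hp : Pr n β) (hn : 1 ≤ n) (hk : K1 β) (hL : DN n β) : DD n β := by
  intro c
  induction hlen : c.length using Nat.strong_induction_on generalizing c with
  | _ N ih =>
  intro p q y hM
  by_cases hy : y ∈ c
  · obtain ⟨c1, c2, rfl⟩ := List.append_of_mem hy
    have h1 := ih c2.length (by rw [← hlen]; simp; omega) c2 rfl (p ++ y :: c1) q y (by
      intro v hv hvy
      have h2 := hM v (by simp [hv]) hvy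
      simp only [List.count_append, List.count_cons] at h2 ⊢
      omega)
    simpa [List.append_assoc] using h1
  by_cases hnd : c.Nodup
  · exact hL c p q y hnd hy hM
  -- a repeated letter
  obtain ⟨v, hv⟩ : ∃ v, 2 ≤ c.count v := by
    by_contra h4
    push Not at h4
    exact hnd (List.nodup_iff_count_le_one.mpr fun a => by have := h4 a; omega)
  obtain ⟨c1, c', hc1, hvc1⟩ := List.eq_append_cons_of_mem
    (List.count_pos_iff.mp (by omega : 0 < c.count v))
  have hvc' : v ∈ c' := by
    rw [hc1, List.count_append, List.count_cons, List.count_eq_zero_of_not_mem hvc1] at hv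
    simp at hv
    exact hv
  obtain ⟨c2, c3, hc2⟩ := List.append_of_mem hvc'
  subst hc2
  subst hc1
  have hvy : v ≠ y := by
    rintro rfl
    exact hy (by simp)
  -- a new letter
  obtain ⟨z, hz⟩ : ∃ z, z ∉ p ++ (y :: v :: (c1 ++ (c2 ++ (c3 ++ q)))) := by
    obtain ⟨z, hz⟩ := Infinite.exists_notMem_finset (p ++ (y :: v :: (c1 ++ (c2 ++ (c3 ++ q))))).toFinset
    exact ⟨z, fun h => hz (List.mem_toFinset.2 h)⟩
  simp only [List.mem_append, List.mem_cons, not_or] at hz
  obtain ⟨zp, zy, zv, z1, z2, z3, zq⟩ := hz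
  -- the transformation of a word with the end `T`
  have tr : ∀ T : List ℕ, y ∈ T → (∀ u, u ≠ y → u ≠ v → List.count u T = List.count u q) →
      RR β (p ++ y :: ((c1 ++ v :: (c2 ++ v :: c3)) ++ T))
        (p ++ (Rp (5 * n) v ++ (y :: (c1 ++ (c2 ++ (Rp (n + 2) v ++ (c3 ++ T))))))) := by
    intro T hyT hT
    have a1 := ih c2.length (by rw [← hlen]; simp; omega) c2 rfl (p ++ y :: c1) (c3 ++ T) v (by
      intro u hu huv
      have hcu : u ∈ c1 ++ v :: (c2 ++ v :: c3) := by simp [hu]
      by_cases huy : u = y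
      · subst huy
        exact absurd hcu hy
      have h2 := hM u hcu huy
      have h3 := hT u huy huv
      simp only [List.count_append, List.count_cons, beq_iff_eq, huv.symm, if_false] at h2 ⊢
      omega)
    have a2 := pP hp hn hk v c2 (p ++ y :: c1) (c3 ++ T) (n + 1) 1 (by omega) (by
      intro u hu huv
      have hcu : u ∈ c1 ++ v :: (c2 ++ v :: c3) := by simp [hu]
      by_cases huy : u = y
      · subst huy
        exact absurd hcu hy
      have h2 := hM u hcu huy
      have h3 := hT u huy huv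
      simp only [List.count_append, List.count_cons, beq_iff_eq, huv.symm, if_false] at h2 ⊢
      omega)
    have a3 : RR β (Rp (1 + (n + 1)) v) (Rp (5 * n + (n + 2)) v) :=
      per_eq' hp (u := 5) (v := 0) (by omega) (by omega) (by ring)
    have a4 := ctx (p ++ y :: (c1 ++ c2)) (c3 ++ T) a3
    have a5 := pP hp hn hk v (y :: (c1 ++ c2)) p (c3 ++ T) (n + 2) (5 * n) (by omega) (by
      intro u hu huv
      by_cases huy : u = y
      · subst huy
        have h1 : 0 < List.count u T := List.count_pos_iff.2 hyT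
        simp only [List.count_append, List.count_cons_self]
        omega
      have hu' : u ∈ c1 ∨ u ∈ c2 := by
        rcases List.mem_cons.1 hu with h | h
        · exact absurd h huy
        · exact List.mem_append.1 h
      have hcu : u ∈ c1 ++ v :: (c2 ++ v :: c3) := by
        rcases hu' with h | h <;> simp [h]
      have h2 := hM u hcu huy
      have h3 := hT u huy huv
      simp only [List.count_append, List.count_cons, beq_iff_eq, huv.symm, (Ne.symm huy), if_false]
        at h2 ⊢
      omega)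
    simp only [List.append_assoc, List.cons_append, List.nil_append, List.singleton_append]
      at a1 a2 a4 a5 ⊢
    have e1 : Rp 1 v = [v] := rfl
    rw [e1] at a2
    simp only [List.append_assoc, List.cons_append, List.nil_append, List.singleton_append]
      at a2
    exact rtr a1 (rtr a2.symm (rtr a4 a5))
  have b1 := tr (y :: q) (by simp) (by
    intro u huy _
    rw [List.count_cons_of_ne (Ne.symm huy)])
  have b2 := tr (Rp (n + 1) y ++ q) (by simp [Rp, List.replicate_succ]) (by
    intro u huy _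
    have h0 : List.count u (Rp (n + 1) y) = 0 := by
      rw [List.count_replicate, if_neg (by simpa using Ne.symm huy)]
    rw [List.count_append, h0, Nat.zero_add])
  have b3 := ih (c1 ++ (c2 ++ z :: c3)).length (by rw [← hlen]; simp) (c1 ++ (c2 ++ z :: c3)) rfl
    (p ++ (Rp (4 * n - 2) v ++ [z])) q y (by
      intro u hu huy
      by_cases huz : u = z
      · subst huz
        simp only [List.count_append, List.count_cons_self]
        omega
      by_cases huv : u = v
      · subst huv
        simp only [List.count_append, List.count_replicate_self]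
        omega
      have hcu : u ∈ c1 ++ v :: (c2 ++ v :: c3) := by
        simp only [List.mem_append, List.mem_cons] at hu ⊢
        rcases hu with h | h | h | h
        · exact Or.inl h
        · exact Or.inr (Or.inr (Or.inl h))
        · exact absurd h huz
        · exact Or.inr (Or.inr (Or.inr (Or.inr h)))
      have h2 := hM u hcu huy
      simp only [List.count_append, List.count_cons, beq_iff_eq, Ne.symm huv, if_false] at h2 ⊢
      omega)
  -- substitute the power
  have hsub : ∀ l : List ℕ, z ∉ l →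
      l.flatMap (fun i => if i = z then Rp (n + 2) v else [i]) = l := by
    intro l
    induction l with
    | nil => intro _; rfl
    | cons a l ih =>
      intro hl
      simp only [List.mem_cons, not_or] at hl
      rw [List.flatMap_cons, ih hl.2, if_neg (Ne.symm hl.1)]
      rfl
  have hrepz : ∀ (k w : ℕ), z ≠ w → z ∉ Rp k w := by
    intro k w hw hm
    exact hw (List.eq_of_mem_replicate hm)
  have b4 := b3.sub (fun i => if i = z then Rp (n + 2) v else [i])
  have key : ∀ T : List ℕ, z ∉ T → ((p ++ (Rp (4 * n - 2) v ++ [z])) ++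
      y :: ((c1 ++ (c2 ++ z :: c3)) ++ T)).flatMap (fun i => if i = z then Rp (n + 2) v else [i]) =
      p ++ (Rp (5 * n) v ++ (y :: (c1 ++ (c2 ++ (Rp (n + 2) v ++ (c3 ++ T)))))) := by
    intro T hT
    simp only [List.flatMap_append, List.flatMap_cons, List.flatMap_nil, if_true]
    rw [hsub p zp, hsub _ (hrepz _ _ zv), hsub c1 z1, hsub c2 z2, hsub c3 z3, hsub T hT,
      if_neg (Ne.symm zy)]
    have e5 : Rp (5 * n) v = Rp (4 * n - 2) v ++ Rp (n + 2) v := by
      rw [← List.replicate_add]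
      congr 1
      omega
    rw [e5]
    simp only [List.append_assoc, List.cons_append, List.nil_append, List.append_nil]
  rw [key (y :: q) (by simp [zy, zq]), key (Rp (n + 1) y ++ q) (by
    intro h
    rcases List.mem_append.1 h with h | h
    · exact hrepz _ _ zy h
    · exact zq h)] at b4
  simp only [List.append_assoc, List.cons_append] at b1 b2 b4 ⊢
  exact rtr b1 (rtr b4 b2.symm)

/-- **I1** for all words -/
theorem i1_of (hp : Pr n β) (hn : 1 ≤ n) (hk : K1 β) (hD : DD n β) : MWZ.I1 n (RR β) := by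
  intro p c q x hMul
  have hM : Mc x c (p ++ c ++ q) := by
    intro v hv hvx
    have h1 := hMul v hv
    simp only [List.count_append, List.count_cons, beq_iff_eq, Ne.symm hvx, if_false] at h1 ⊢
    omega
  -- `x c x ~ x c x^(n+1) ~ c x^(n+2)`
  have a1 := hD c p q x hM
  have a2 := pP hp hn hk x c p q (n + 1) 1 (by omega) hM
  -- `x^n (x c x) ~ x^n x c x^(n+1) ~ c x^(2n+2)`
  have b1 := hD c (p ++ Rp n x) q x (by
    intro v hv hvx
    have h1 := hM v hv hvx
    simp only [List.count_append] at h1 ⊢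
    omega)
  have b2 := pP hp hn hk x c p q (n + 1) (n + 1) (by omega) hM
  have b3 : RR β (Rp (1 + (n + 1)) x) (Rp (n + 1 + (n + 1)) x) :=
    per_eq' hp (u := 1) (v := 0) (by omega) (by omega) (by omega)
  have b4 := ctx (p ++ c) q b3
  have e1 : Rp 1 x = [x] := rfl
  have e2 : p ++ (Rp (n + 1) x ++ (c ++ (Rp (n + 1) x ++ q))) =
      p ++ Rp n x ++ x :: (c ++ (Rp (n + 1) x ++ q)) := by
    rw [Rp, List.replicate_succ' (n := n)]
    simp only [List.append_assoc, List.cons_append, List.nil_append]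
  have e3 : p ++ (Rp (n + 1) x ++ (c ++ x :: q)) = p ++ Rp n x ++ x :: (c ++ x :: q) := by
    rw [Rp, List.replicate_succ' (n := n)]
    simp only [List.append_assoc, List.cons_append, List.nil_append]
  rw [e2] at b2
  rw [e1] at a2
  show RR β _ (p ++ (Rp (n + 1) x ++ (c ++ x :: q)))
  rw [e3]
  simp only [List.append_assoc, List.cons_append, List.nil_append] at a1 a2 b1 b2 b4 ⊢
  exact rtr a1 (rtr a2.symm (rtr b4 (rtr b2 b1.symm)))

/-- **I2** for all words -/
theorem i2_of (hp : Pr n β) (hn : 1 ≤ n) (hk : K1 β) (hD : DD n β) : MWZ.I2 (RR β) := by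
  intro p c d q x hMul
  have hM : Mc x (c ++ d) (p ++ (c ++ d) ++ q) := by
    intro v hv hvx
    have h1 := hMul v hv
    simp only [List.count_append, List.count_cons, beq_iff_eq, Ne.symm hvx, if_false] at h1 ⊢
    omega
  have hMd : Mc x d ((p ++ x :: c) ++ d ++ q) := by
    intro v hv hvx
    have h1 := hM v (List.mem_append_right _ hv) hvx
    simp only [List.count_append, List.count_cons] at h1 ⊢
    omega
  -- `x c x d x ~ x c x d x^(n+1) ~ x c d x^(n+2)`
  have a1 := hD d (p ++ x :: c) q x hMd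
  have a2 := pP hp hn hk x d (p ++ x :: c) q (n + 1) 1 (by omega) hMd
  -- `x x c d x ~ x x c d x^(n+1) ~ x c d x^(n+2)`
  have b1 := hD (c ++ d) (p ++ [x]) q x (by
    intro v hv hvx
    have h1 := hM v hv hvx
    simp only [List.count_append] at h1 ⊢
    omega)
  have b2 := pP hp hn hk x (c ++ d) (p ++ [x]) q (n + 1) 1 (by omega) (by
    intro v hv hvx
    have h1 := hM v hv hvx
    simp only [List.count_append] at h1 ⊢
    omega)
  have e1 : Rp 1 x = [x] := rfl
  rw [e1] at a2 b2
  simp only [List.append_assoc, List.cons_append, List.nil_append] at a1 a2 b1 b2 ⊢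
  exact rtr a1 (rtr a2.symm (rtr b2 b1.symm))

/-- **(U)** -/
theorem i12_of_fd (hp : Pr n β) (hn : 1 ≤ n) (hk : K1 β) (hF : Fd β) :
    MWZ.I1 n (RR β) ∧ MWZ.I2 (RR β) :=
  have hD := dd hp hn hk (dn_of_fd hp hn hk hF)
  ⟨i1_of hp hn hk hD, i2_of hp hn hk hD⟩

/-- `x yy ≈ y x y` from `T4`, `T6` -/
theorem k1_of_s8 (h4 : MWZ.T4 (RR β)) (h6 : MWZ.T6 (RR β)) : K1 β := by
  intro p q x y hxy hx
  rcases hx with hx | hx
  · obtain ⟨p1, p2, rfl⟩ := List.append_of_mem hx
    have h1 := RR.sub (β := β) (fun i => if i = 0 then [x] else if i = 1 then [y] else p2) h4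
    have h2 := ctx p1 q h1
    simpa [List.flatMap_cons] using h2
  · obtain ⟨q1, q2, rfl⟩ := List.append_of_mem hx
    have h1 := RR.sub (β := β) (fun i => if i = 0 then [x] else if i = 1 then [y] else q1) h6
    have h2 := ctx p q2 h1
    simpa [List.flatMap_cons] using h2

theorem pr_of_per (h : MWZ.Per n (RR β)) : Pr n β := h

/-- helper41's theorem over h4, h5 -/
def FdS8 (n : ℕ) : Prop := ∀ β : FIC, LRW n β → MWNP.HBP n β →
  (MWZ.T1 (RR β) ∧ MWZ.T2 (RR β) ∧ MWZ.T3 (RR β) ∧ MWZ.T4 (RR β) ∧ MWZ.T5 (RR β) ∧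
    MWZ.T6 (RR β) ∧ MWZ.T7 (RR β) ∧ MWZ.E2 (RR β)) → Fd β

theorem it8_of (n : ℕ) (h : FdS8 n) : It8 n := by
  intro β hw hb hs
  exact i12_of_fd (pr_of_per hw.per) hw.pos (k1_of_s8 hs.2.2.2.1 hs.2.2.2.2.2.1) (h β hw hb hs)

/-! ### the h3 world -/

theorem sub10 (n : ℕ) : List.Sublist [1, 0] ([1, 1, 0] ++ Rp n 1) := by
  have h : List.Sublist [1, 0] [1, 1, 0] := by decide
  exact h.trans (List.sublist_append_left _ _)

theorem sub01 (hn : 1 ≤ n) : List.Sublist [0, 1] ([1, 1, 0] ++ Rp n 1) := by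
  have h : List.Sublist ([0] ++ [1]) ([1, 1, 0] ++ Rp n 1) := by
    apply List.Sublist.append
    · decide
    · obtain ⟨k, rfl⟩ : ∃ k, n = k + 1 := ⟨n - 1, by omega⟩
      rw [Rp, List.replicate_succ]
      exact List.Sublist.cons₂ _ (List.nil_sublist _)
  exact h

/-- the two letter principle for two blocks -/
theorem hst1 (hb : MWNP.HBP n β) {U0 U1 V0 V1 : List ℕ} (hU : ∀ c ∈ U0 ++ U1, c = 0 ∨ c = 1)
    (hV : ∀ c ∈ V0 ++ V1, c = 0 ∨ c = 1) (cU : ∀ c ∈ U0 ++ U1, 2 ≤ (U0 ++ U1).count c)
    (cV : ∀ c ∈ V0 ++ V1, 2 ≤ (V0 ++ V1).count c)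
    (s0 : ∀ c, c = 0 ∨ c = 1 → U0.count c = V0.count c ∨
      (2 ≤ U0.count c ∧ 2 ≤ V0.count c ∧ U0.count c ≡ V0.count c [MOD n]))
    (s1 : ∀ c, c = 0 ∨ c = 1 → U1.count c = V1.count c ∨
      (2 ≤ U1.count c ∧ 2 ≤ V1.count c ∧ U1.count c ≡ V1.count c [MOD n]))
    (h0 : (MWN.Fst false U0 ↔ MWN.Fst false V0) ∧ (MWN.Fst true U0 ↔ MWN.Fst true V0))
    (h1 : (MWN.Fst false U1 ↔ MWN.Fst false V1) ∧ (MWN.Fst true U1 ↔ MWN.Fst true V1)) :
    RR β (U0 ++ 2 :: U1) (V0 ++ 2 :: V1) := by
  have hle : ∀ {j : ℕ}, j ≤ 1 → j = 0 ∨ j = 1 := by intro j hj; omega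
  have ok : ∀ (A B : List ℕ), (∀ c ∈ A ++ B, c = 0 ∨ c = 1) → (∀ c ∈ A ++ B, 2 ≤ (A ++ B).count c) →
      MWS.OkB 1 (fun j => if j = 0 then A else B) ∧ MWS.Two01 1 (fun j => if j = 0 then A else B) := by
    intro A B hA hc
    have hmem : ∀ j ≤ 1, ∀ c ∈ (if j = 0 then A else B), c ∈ A ++ B := by
      intro j hj c hcm
      rcases hle hj with rfl | rfl
      · exact List.mem_append_left _ hcm
      · exact List.mem_append_right _ hcm
    refine ⟨⟨?_, ?_⟩, ?_⟩
    · intro j hj c hcm hs
      rcases hA c (hmem j hj c hcm) with h | h <;> omega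
    · intro j hj c hcm
      have h2 := hc c (hmem j hj c hcm)
      rw [List.count_append] at h2
      unfold MVO.deg
      rw [Finset.sum_range_succ, Finset.sum_range_one]
      exact h2
    · intro j hj c hcm
      exact hA c (hmem j hj c hcm)
  have h := hb.hst 1 (fun j => if j = 0 then U0 else U1) (fun j => if j = 0 then V0 else V1)
    (ok U0 U1 hU cU).1 (ok V0 V1 hV cV).1 (ok U0 U1 hU cU).2 (ok V0 V1 hV cV).2
    (by
      intro j hj
      rcases hle hj with rfl | rfl
      · exact s0 0 (Or.inl rfl)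
      · exact s1 0 (Or.inl rfl))
    (by
      intro j hj
      rcases hle hj with rfl | rfl
      · exact s0 1 (Or.inr rfl)
      · exact s1 1 (Or.inr rfl))
    (by
      intro i hi _
      rcases hle hi with rfl | rfl
      · exact h0
      · exact h1)
  exact h

theorem cnt_mix (n : ℕ) : ([1, 1, 0] ++ Rp n 1 : List ℕ).count 1 = n + 2 ∧
    ([1, 1, 0] ++ Rp n 1 : List ℕ).count 0 = 1 := by
  constructor
  · rw [List.count_append, List.count_replicate_self]
    have : ([1, 1, 0] : List ℕ).count 1 = 2 := by decide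
    omega
  · rw [List.count_append, List.count_replicate]
    have : ([1, 1, 0] : List ℕ).count 0 = 1 := by decide
    simp

theorem mem_mix {c : ℕ} (h : c ∈ ([1, 1, 0] ++ Rp n 1 : List ℕ)) : c = 0 ∨ c = 1 := by
  rcases List.mem_append.1 h with h | h
  · simp at h
    omega
  · exact Or.inr (List.eq_of_mem_replicate h)

theorem st_mix (hn : 1 ≤ n) : (MWN.Fst false ([1, 1, 0] ++ Rp n 1) ↔ MWN.Fst false [1, 0, 1]) ∧
    (MWN.Fst true ([1, 1, 0] ++ Rp n 1) ↔ MWN.Fst true [1, 0, 1]) := by
  have a1 : List.Sublist [1, 0] [1, 0, 1] := by decide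
  have a2 : List.Sublist [0, 1] [1, 0, 1] := by decide
  constructor
  · exact ⟨fun h => absurd (sub10 n) h, fun h => absurd a1 h⟩
  · exact ⟨fun h => absurd (sub01 hn) h, fun h => absurd a2 h⟩

/-- the two words with a mixed block -/
theorem mixA (hb : MWNP.HBP n β) :
    RR β (([1, 1, 0] ++ Rp n 1) ++ 2 :: [0]) ([1, 0, 1] ++ 2 :: [0]) := by
  obtain ⟨c1, c0⟩ := cnt_mix n
  have d1 : ([1, 0, 1] : List ℕ).count 1 = 2 := by decide
  have d0 : ([1, 0, 1] : List ℕ).count 0 = 1 := by decide
  refine hst1 hb ?_ ?_ ?_ ?_ ?_ ?_ (st_mix hb.pos) ⟨Iff.rfl, Iff.rfl⟩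
  · intro c hc
    rcases List.mem_append.1 hc with h | h
    · exact mem_mix h
    · simp at h; exact Or.inl h
  · intro c hc
    simp at hc
    omega
  · intro c hc
    have h01 : c = 0 ∨ c = 1 := by
      rcases List.mem_append.1 hc with h | h
      · exact mem_mix h
      · simp at h; exact Or.inl h
    rcases h01 with rfl | rfl
    · rw [List.count_append, c0]
      simp
    · rw [List.count_append, c1]
      omega
  · decide
  · rintro c (rfl | rfl)
    · left; rw [c0, d0]
    · right
      rw [c1, d1]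
      refine ⟨by omega, le_refl 2, ?_⟩
      unfold Nat.ModEq
      simp
  · intro c _
    exact Or.inl rfl

theorem mixB (hb : MWNP.HBP n β) :
    RR β ([0] ++ 2 :: ([1, 1, 0] ++ Rp n 1)) ([0] ++ 2 :: [1, 0, 1]) := by
  obtain ⟨c1, c0⟩ := cnt_mix n
  have d1 : ([1, 0, 1] : List ℕ).count 1 = 2 := by decide
  have d0 : ([1, 0, 1] : List ℕ).count 0 = 1 := by decide
  refine hst1 hb ?_ ?_ ?_ ?_ ?_ ?_ ⟨Iff.rfl, Iff.rfl⟩ (st_mix hb.pos)
  · intro c hc
    rcases List.mem_append.1 hc with h | h
    · simp at h; exact Or.inl h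
    · exact mem_mix h
  · intro c hc
    simp at hc
    omega
  · intro c hc
    have h01 : c = 0 ∨ c = 1 := by
      rcases List.mem_append.1 hc with h | h
      · simp at h; exact Or.inl h
      · exact mem_mix h
    rcases h01 with rfl | rfl
    · rw [List.count_append, c0]
      simp
    · rw [List.count_append, c1]
      omega
  · decide
  · intro c _
    exact Or.inl rfl
  · rintro c (rfl | rfl)
    · left; rw [c0, d0]
    · right
      rw [c1, d1]
      refine ⟨by omega, le_refl 2, ?_⟩
      unfold Nat.ModEq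
      simp

/-- `xyytx ≈ yxytx` over h3 -/
theorem k1a (hb : MWNP.HBP n β) (h4 : MWZ.H4 (RR β)) : RR β [0, 1, 1, 2, 0] [1, 0, 1, 2, 0] := by
  -- `x y^2 t x ~ x y^(n+2) t x`
  have a1 : RR β (Rp 2 1) (Rp (2 + n) 1) := by
    have := per_pow (β := β) (n := n) hb.ap 2 1 le_rfl 1
    rwa [Nat.one_mul] at this
  have a2 := ctx [0] [2, 0] a1
  -- `x yy S x ~ yy x S x`, `S = y^n t`
  have a3 := RR.sub (β := β) (fun i => if i = 0 then [1] else if i = 1 then [0] else
    Rp n 1 ++ [2]) h4
  have a4 := mixA hb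
  have e1 : [0] ++ Rp 2 1 ++ [2, 0] = ([0, 1, 1, 2, 0] : List ℕ) := rfl
  have e2 : [1, 0, 0, 2, 0].length = 5 := rfl
  have e3 : [0] ++ Rp (2 + n) 1 ++ [2, 0] = 0 :: 1 :: 1 :: (Rp n 1 ++ [2, 0]) := by
    rw [Rp, List.replicate_add]
    rfl
  rw [e1, e3] at a2
  have a3' : RR β (1 :: 1 :: 0 :: (Rp n 1 ++ [2, 0])) (0 :: 1 :: 1 :: (Rp n 1 ++ [2, 0])) := by
    simpa [List.flatMap_cons] using a3
  have a4' : RR β (1 :: 1 :: 0 :: (Rp n 1 ++ [2, 0])) [1, 0, 1, 2, 0] := by
    simpa using a4
  exact rtr a2 (rtr a3'.symm a4')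

/-- `xtxyy ≈ xtyxy` over h3 -/
theorem k1b (hb : MWNP.HBP n β) (h1 : MWZ.E1 (RR β)) : RR β [0, 2, 0, 1, 1] [0, 2, 1, 0, 1] := by
  have a1 : RR β (Rp 2 1) (Rp (2 + n) 1) := by
    have := per_pow (β := β) (n := n) hb.ap 2 1 le_rfl 1
    rwa [Nat.one_mul] at this
  have a2 := ctx [0, 2, 0] [] a1
  have a3 := ctx [] (Rp n 1) h1
  have a4 := mixB hb
  have e1 : [0, 2, 0] ++ Rp 2 1 ++ [] = ([0, 2, 0, 1, 1] : List ℕ) := rfl
  have e3 : [0, 2, 0] ++ Rp (2 + n) 1 ++ [] = 0 :: 2 :: 0 :: 1 :: 1 :: Rp n 1 := by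
    rw [Rp, List.replicate_add, List.append_nil]
    rfl
  rw [e1, e3] at a2
  have a3' : RR β (0 :: 2 :: 0 :: 1 :: 1 :: Rp n 1) (0 :: 2 :: 1 :: 1 :: 0 :: Rp n 1) := by
    simpa using a3
  have a4' : RR β (0 :: 2 :: 1 :: 1 :: 0 :: Rp n 1) [0, 2, 1, 0, 1] := by
    simpa using a4
  exact rtr a2 (rtr a3' a4')

theorem k1_of_h3 (hb : MWNP.HBP n β) (h4 : MWZ.H4 (RR β)) (h1 : MWZ.E1 (RR β)) : K1 β :=
  k1_of_s8 (k1b hb h1) (k1a hb h4)

/-- helper41's theorem over h3 -/
def FdH3 (n : ℕ) : Prop := ∀ β : FIC, LRW n β → MWNP.HBP n β →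
  (MWZ.H1 (RR β) ∧ MWZ.H2 (RR β) ∧ MWZ.H3 (RR β) ∧ MWZ.H4 (RR β) ∧ MWZ.E1 (RR β)) → Fd β

theorem it3_of (n : ℕ) (h : FdH3 n) : It3 n := by
  intro β hw hb hs
  exact i12_of_fd (pr_of_per hw.per) hw.pos (k1_of_h3 hb hs.2.2.2.1 hs.2.2.2.2) (h β hw hb hs)

end Pool.Agent.Helper61_MWD
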